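import Mathlib
import Pool.Agent.H533.GE.PrmS

set_option autoImplicit false
set_option maxHeartbeats 400000

/-!
# Odd integers `n = f(p) + q`: which small primes `p` occur

`f = X² + b X + c`, `b + c` odd. The average number of representations with `p ≤ T log n log log n` is of
the order `T`. For a positive proportion of the odd `n` the set of the primes `p ≤ Λ log n log log n` with
`n - f(p)` prime lies in a prescribed window or in an arbitrary prescribed set of primes, uniformly in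
`f`; the number of the `n` for which it is a given set `T` is of the order of magnitude of the conjecture
of Schinzel and Bateman–Horn, or larger, for a positive proportion of the sets `T`.
-/

namespace Pool.Agent.Results.MP_d9bc60_nt.PrescribedPrimeArguments

open Finset

/-- `f = X² + b X + c` at `p` -/
def f (b c : ℤ) (p : ℕ) : ℤ := (p : ℤ) ^ 2 + b * p + c

/-- `n = f(p) + q` with a prime `q` -/
def Rep (b c : ℤ) (n p : ℕ) : Prop := ∃ q : ℕ, q.Prime ∧ f b c p + q = n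

/-- `log x log log x` -/
noncomputable def ell (x : ℕ) : ℝ := Real.log x * Real.log (Real.log x)

/-- the number of the residue classes mod `q` which meet the set of the `f(p)`, `p ∈ T` -/
def nu (b c : ℤ) (T : Finset ℕ) (q : ℕ) : ℕ := (T.image (fun p => f b c p % (q : ℤ))).card

/-- the singular series of the shifts `f(p)`, `p ∈ T` -/
noncomputable def S (b c : ℤ) (T : Finset ℕ) : ℝ :=
  ∏' q : Nat.Primes, (1 - (nu b c T q : ℝ) / ((q : ℕ) : ℝ)) / (1 - 1 / ((q : ℕ) : ℝ)) ^ T.card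

open Classical in
/-- the number of the odd `n`, `x ≤ n < 2x`, such that `{p ∈ J : Rep b c n p} = T` (for `T ⊆ J`) -/
noncomputable def E (b c : ℤ) (x : ℕ) (J T : Finset ℕ) : ℕ :=
  ((Ico x (2 * x)).filter (fun n => Odd n ∧ ∀ p ∈ J, (Rep b c n p ↔ p ∈ T))).card

/-- `n / φ(n)` -/
noncomputable def G (n : ℕ) : ℝ := (n : ℝ) / Nat.totient n

/-- `J` is a set of primes between `|b| + |c| + 3` and `Y` -/
def Primes (Y : ℝ) (b c : ℤ) (J : Finset ℕ) : Prop :=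
  ∀ p ∈ J, p.Prime ∧ b.natAbs + c.natAbs + 3 ≤ p ∧ (p : ℝ) ≤ Y

/-- `J` has at most `Λ L` elements and the sum of `G(|f(p) - f(q)|) ^ k` over the ordered pairs of
distinct elements of `J` is at most `C k * L ^ 2`, for every `k` -/
def Mom (C : ℕ → ℝ) (Λ L : ℝ) (b c : ℤ) (J : Finset ℕ) : Prop :=
  (J.card : ℝ) ≤ Λ * L ∧
    ∀ k : ℕ, ∑ r ∈ J.offDiag, G (f b c r.1 - f b c r.2).natAbs ^ k ≤ C k * L ^ 2

open Classical in
/-- the number of the odd `n`, `x ≤ n < 2x`, such that `Rep b c n p` for at least `m` primes `p ∈ A` and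
for no other prime `p ≤ Λ log x log log x` -/
noncomputable def W (m : ℕ) (Λ : ℝ) (b c : ℤ) (x : ℕ) (A : Set ℕ) : ℕ :=
  ((Ico x (2 * x)).filter (fun n => Odd n ∧
    m ≤ ((range (2 * x)).filter (fun p => p.Prime ∧ p ∈ A ∧ Rep b c n p)).card ∧
    ∀ p : ℕ, p.Prime → (p : ℝ) ≤ Λ * ell x → Rep b c n p → p ∈ A)).card

open Classical in
/-- at least `κ (log x) ^ l` of the `l`-element subsets `T` of `A` satisfy
`E b c x J T ≥ κ max(1, S T) x / (log x) ^ l` -/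
def Many (κ : ℝ) (x l : ℕ) (b c : ℤ) (J A : Finset ℕ) : Prop :=
  κ * Real.log x ^ l ≤ (((A.powersetCard l).filter (fun T => κ * max 1 (S b c T) *
    (x / Real.log x ^ l) ≤ (E b c x J T : ℝ))).card : ℝ)

lemma card_mono {ι : Type*} {s : Finset ι} {P Q : ι → Prop} (iP : DecidablePred P)
    (iQ : DecidablePred Q) (h : ∀ a ∈ s, P a → Q a) :
    (@Finset.filter ι P iP s).card ≤ (@Finset.filter ι Q iQ s).card := by
  apply card_le_card
  intro a ha
  rw [mem_filter] at ha ⊢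
  exact ⟨ha.1, h a ha.1 ha.2⟩

lemma card_mono' {ι : Type*} {s t : Finset ι} {P Q : ι → Prop} (iP : DecidablePred P)
    (iQ : DecidablePred Q) (h : ∀ a ∈ s, P a → a ∈ t ∧ Q a) :
    (@Finset.filter ι P iP s).card ≤ (@Finset.filter ι Q iQ t).card := by
  apply card_le_card
  intro a ha
  rw [mem_filter] at ha ⊢
  exact h a ha.1 ha.2

lemma Fq_eq (b c : ℤ) (p : ℕ) : Pool.Agent.H533.GE.Fq b c p = - f b c p := rfl

lemma S_eq (b c : ℤ) (T : Finset ℕ) : S b c T = Pool.Agent.H533.GE.SZ (Pool.Agent.H533.GE.Fq b c) T := by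
  unfold S Pool.Agent.H533.GE.SZ nu
  apply tprod_congr
  intro q
  have h : (T.image (fun p => f b c p % ((q : ℕ) : ℤ))).card =
      (T.image (fun k => Pool.Agent.H533.GE.Fq b c k % ((q : ℕ) : ℤ))).card := by
    apply Pool.Agent.H533.GE.card_image_congr
    intro p _ r _
    rw [Fq_eq, Fq_eq]
    constructor
    · intro h
      have h' : f b c p ≡ f b c r [ZMOD ((q : ℕ) : ℤ)] := h
      exact h'.neg
    · intro h
      have h' : - f b c p ≡ - f b c r [ZMOD ((q : ℕ) : ℤ)] := h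
      have h2 := h'.neg
      rw [neg_neg, neg_neg] at h2
      exact h2
  rw [h]

lemma mom_sum_eq (b c : ℤ) (J : Finset ℕ) (k : ℕ) :
    ∑ r ∈ J.offDiag, G (f b c r.1 - f b c r.2).natAbs ^ k =
      ∑ r ∈ J.offDiag, Pool.Agent.H533.GE.gg
        (Pool.Agent.H533.GE.Fq b c r.1 - Pool.Agent.H533.GE.Fq b c r.2).natAbs ^ k := by
  apply sum_congr rfl
  intro r _
  have e : (Pool.Agent.H533.GE.Fq b c r.1 - Pool.Agent.H533.GE.Fq b c r.2).natAbs =
      (f b c r.1 - f b c r.2).natAbs := by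
    rw [Fq_eq, Fq_eq, ← Int.natAbs_neg]
    congr 1
    ring
  rw [e]
  rfl

lemma mom_to {C : ℕ → ℝ} {Λ L Y : ℝ} {b c : ℤ} {J : Finset ℕ} (hJ : Primes Y b c J)
    (h : Mom C Λ L b c J) : Pool.Agent.H533.GE.MomZ C Λ L (Pool.Agent.H533.GE.Fq b c) J := by
  refine ⟨h.1, fun p hp q _ e => Pool.Agent.H533.GE.Fq_inj b c p q (hJ p hp).2.1 e, fun k => ?_⟩
  have h2 := h.2 k
  rwa [mom_sum_eq] at h2

lemma mom_of {C : ℕ → ℝ} {Λ L : ℝ} {b c : ℤ} {J : Finset ℕ}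
    (h : Pool.Agent.H533.GE.MomZ C Λ L (Pool.Agent.H533.GE.Fq b c) J) : Mom C Λ L b c J := by
  refine ⟨h.1, fun k => ?_⟩
  rw [mom_sum_eq]
  exact h.2.2 k

lemma EP_le (b c : ℤ) (x : ℕ) (J T : Finset ℕ) :
    Pool.Agent.H533.GE.EP b c x J T ≤ E b c x J T := by
  unfold Pool.Agent.H533.GE.EP E
  apply card_mono
  intro n _ hn
  exact hn

/-- (1) Let `0 ≤ α < β ≤ Λ` and `m` be given. There is `δ > 0` such that for all large `x` and all
`f = X² + b X + c` with `b + c` odd and `|b| + |c| ≤ log x`, for at least `δ x` odd `n` in `[x, 2x)` there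
are at least `m` primes `p` with `α ℓ < p ≤ β ℓ`, `ℓ = log x log log x`, for which `n - f(p)` is prime,
and `n - f(p)` is prime for no other prime `p ≤ Λ ℓ`.

(2) The same for EVERY set `A` of at least `ρ log x` primes up to `Λ ℓ` in place of the window;
`δ = δ(m, ρ, Λ)`.

(3) For all `C`, `Λ, ρ > 0`, `m ≥ 1` there are `M` and `κ > 0` such that for every `B`, all large `x`, all
`f` with `b + c` odd, all sets `J` of primes between `|b| + |c| + 3` and `(log x) ^ B` with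
`Mom C Λ (log x) b c J` and EVERY subset `A` of `J` with at least `ρ log x` elements there is `l`,
`m ≤ l ≤ M`, such that for at least `κ (log x) ^ l` of the `l`-element subsets `T` of `A` there are at
least `κ max(1, S T) x / (log x) ^ l` odd `n` in `[x, 2x)` with `{p ∈ J : n - f(p) prime} = T`.

(4) The same for every `l ≥ 1`, with `J` and `A` replaced by their elements `≤ t`, for some `t`.

(5) For every `T > 0` there is `C` such that for all large `x` and all `f` every set `J` of primes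
between `|b| + |c| + 3` and `T log x log log x` satisfies `Mom C (16 T) (log x) b c J`. -/
theorem result :
    (∀ (m : ℕ) (α β Λ : ℝ), 0 ≤ α → α < β → β ≤ Λ → ∃ δ : ℝ, 0 < δ ∧ ∃ x₀ : ℕ, ∀ x : ℕ, x₀ ≤ x →
      ∀ b c : ℤ, Odd (b + c) → ((b.natAbs + c.natAbs : ℕ) : ℝ) ≤ Real.log x →
      δ * x ≤ W m Λ b c x {p | α * ell x < p ∧ (p : ℝ) ≤ β * ell x}) ∧
    (∀ (m : ℕ) (ρ Λ : ℝ), 0 < ρ → 0 < Λ → ∃ δ : ℝ, 0 < δ ∧ ∃ x₀ : ℕ, ∀ x : ℕ, x₀ ≤ x →
      ∀ b c : ℤ, Odd (b + c) → ((b.natAbs + c.natAbs : ℕ) : ℝ) ≤ Real.log x →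
      ∀ A : Finset ℕ, (∀ p ∈ A, p.Prime ∧ (p : ℝ) ≤ Λ * ell x) → ρ * Real.log x ≤ A.card →
      δ * x ≤ W m Λ b c x (A : Set ℕ)) ∧
    (∀ (C : ℕ → ℝ) (Λ ρ : ℝ), 0 < Λ → 0 < ρ → ∀ m : ℕ, 1 ≤ m →
      ∃ M : ℕ, ∃ κ : ℝ, 0 < κ ∧ ∀ B : ℕ, ∃ x₀ : ℕ, ∀ x : ℕ, x₀ ≤ x →
      ∀ b c : ℤ, Odd (b + c) → ∀ J : Finset ℕ, Primes (Real.log x ^ B) b c J →
      Mom C Λ (Real.log x) b c J → ∀ A ⊆ J, ρ * Real.log x ≤ A.card →
      ∃ l, m ≤ l ∧ l ≤ M ∧ Many κ x l b c J A) ∧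
    (∀ (C : ℕ → ℝ) (Λ ρ : ℝ), 0 < Λ → 0 < ρ → ∀ l : ℕ, 1 ≤ l →
      ∃ κ : ℝ, 0 < κ ∧ ∀ B : ℕ, ∃ x₀ : ℕ, ∀ x : ℕ, x₀ ≤ x →
      ∀ b c : ℤ, Odd (b + c) → ∀ J : Finset ℕ, Primes (Real.log x ^ B) b c J →
      Mom C Λ (Real.log x) b c J → ∀ A ⊆ J, ρ * Real.log x ≤ A.card →
      ∃ t, Many κ x l b c (J.filter (fun p => p ≤ t)) (A.filter (fun p => p ≤ t))) ∧
    (∀ T : ℝ, 0 < T → ∃ C : ℕ → ℝ, ∃ x₀ : ℕ, ∀ x : ℕ, x₀ ≤ x → ∀ (b c : ℤ) (J : Finset ℕ),
      Primes (T * ell x) b c J → Mom C (16 * T) (Real.log x) b c J) := by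
  refine ⟨?_, ?_, ?_, ?_, ?_⟩
  · intro m α β Λ h1 h2 h3
    obtain ⟨δ, hδ, x₀, h⟩ := Pool.Agent.H533.GE.prmW m α β Λ h1 h2 h3
    obtain ⟨x₁, hx₁⟩ := Pool.Agent.H533.GE.ell_le Λ (lt_of_le_of_lt h1 (lt_of_lt_of_le h2 h3))
    refine ⟨δ, hδ, x₀ + x₁, fun x hx b c hbc hbcL => ?_⟩
    refine (h x (by omega) b c hbc hbcL).trans (Nat.cast_le.2 ?_)
    unfold W
    apply card_mono
    intro n _ hn
    refine ⟨hn.1, hn.2.1.trans ?_, hn.2.2⟩
    apply card_mono'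
    intro p hp hp'
    rw [mem_Ioc] at hp
    have hL : 0 ≤ ell x := (hx₁ x (by omega)).1
    have hp1 : α * ell x < p := (Nat.floor_lt (mul_nonneg h1 hL)).1 hp.1
    have hp2 : (p : ℝ) ≤ β * ell x :=
      (Nat.le_floor_iff (mul_nonneg (by linarith) hL)).1 hp.2
    have hp3 := (hx₁ x (by omega)).2 p (hp2.trans (mul_le_mul_of_nonneg_right h3 hL))
    exact ⟨mem_range.2 hp3, hp'.1, ⟨hp1, hp2⟩, hp'.2⟩
  · intro m ρ Λ hρ hΛ
    obtain ⟨δ, hδ, x₀, h⟩ := Pool.Agent.H533.GE.prm1 m ρ Λ hρ hΛ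
    obtain ⟨x₁, hx₁⟩ := Pool.Agent.H533.GE.ell_le Λ hΛ
    refine ⟨δ, hδ, x₀ + x₁, fun x hx b c hbc hbcL A hA hAc => ?_⟩
    refine (h x (by omega) b c hbc hbcL A hA hAc).trans (Nat.cast_le.2 ?_)
    unfold W
    apply card_mono
    intro n _ hn
    refine ⟨hn.1, hn.2.1.trans ?_, hn.2.2⟩
    apply card_mono'
    intro p hp hp'
    have hp1 := hA p hp
    have hp3 := (hx₁ x (by omega)).2 p hp1.2
    refine ⟨mem_range.2 hp3, hp1.1, ?_, hp'⟩
    exact_mod_cast hp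
  · intro C Λ ρ hΛ hρ m hm
    obtain ⟨M, κ, hκ, H⟩ := Pool.Agent.H533.GE.prm2 C Λ ρ hΛ hρ m hm
    refine ⟨M, κ, hκ, fun B => ?_⟩
    obtain ⟨x₀, h⟩ := H B
    refine ⟨x₀, fun x hx b c hbc J hJ hMom A hAJ hA => ?_⟩
    obtain ⟨l, h1, h2, h3⟩ := h x hx b c hbc J hJ (mom_to hJ hMom) A hAJ hA
    refine ⟨l, h1, h2, ?_⟩
    unfold Many
    refine h3.trans (Nat.cast_le.2 (card_mono _ _ ?_))
    intro T _ hT
    rw [S_eq]
    exact hT.trans (Nat.cast_le.2 (EP_le b c x J T))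
  · intro C Λ ρ hΛ hρ l hl
    obtain ⟨κ, hκ, H⟩ := Pool.Agent.H533.GE.prm3 C Λ ρ hΛ hρ l hl
    refine ⟨κ, hκ, fun B => ?_⟩
    obtain ⟨x₀, h⟩ := H B
    refine ⟨x₀, fun x hx b c hbc J hJ hMom A hAJ hA => ?_⟩
    obtain ⟨t, h3⟩ := h x hx b c hbc J hJ (mom_to hJ hMom) A hAJ hA
    refine ⟨t, ?_⟩
    unfold Many
    refine h3.trans (Nat.cast_le.2 (card_mono _ _ ?_))
    intro T _ hT
    rw [S_eq]
    exact hT.trans (Nat.cast_le.2 (EP_le b c x _ T))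
  · intro T hT
    obtain ⟨C, x₀, h⟩ := Pool.Agent.H533.GE.momP T hT
    exact ⟨C, x₀, fun x hx b c J hJ => mom_of (h x hx b c J hJ)⟩

end Pool.Agent.Results.MP_d9bc60_nt.PrescribedPrimeArguments
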