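import Pool.Agent.H561.PG.Q6

set_option autoImplicit false

/-! Odd numbers `n = f(p₁) + p₂`, `f` an admissible monic quadratic polynomial, with a small prime `p₁`: the asymptotic formula
predicted by Schinzel in all windows from `n ^ (1 / 8 + δ)` on, for almost all odd `n`. -/

namespace Pool.Agent.Results.MP_d9bc60_nt.SmallPrimeArguments

open Finset

open Classical in
/-- the number of the residues `r` modulo `p` with `r (n - f(r)) ≡ 0`, `f(x) = x ^ 2 + b x + c` -/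
noncomputable def omega (b c : ℤ) (n p : ℕ) : ℕ :=
  ((range p).filter (fun r : ℕ => (p : ℤ) ∣ r * ((n : ℤ) - ((r : ℤ) ^ 2 + b * r + c)))).card

/-- the partial products of the singular series -/
noncomputable def partialS (b c : ℤ) (n z : ℕ) : ℝ :=
  ∏ p ∈ (Icc 1 z).filter Nat.Prime, (1 - (omega b c n p : ℝ) / p) / (1 - 1 / (p : ℝ)) ^ 2

open Classical in
/-- the number of the representations `n = f(p₁) + p₂` with primes `p₁`, `p₂` and `u < p₁ ≤ v` -/
noncomputable def count (b c : ℤ) (n : ℕ) (u v : ℝ) : ℕ :=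
  ((Ioc ⌊u⌋₊ ⌊v⌋₊).filter
    (fun p : ℕ => p.Prime ∧ ∃ q : ℕ, q.Prime ∧ (n : ℤ) = ((p : ℤ) ^ 2 + b * p + c) + q)).card

/-- the singular series converges to a positive limit `S`, and the number of the representations with `u < p₁ ≤ v` is
`S (v - u) / (log v log n)` up to a relative error `ε` for all `u, v` with `n ^ (1 / 8 + δ) ≤ v`, `v ^ 2 (log n) ^ B ≤ n`,
`v - u ≥ v / (log n) ^ W` -/
def Holds (b c : ℤ) (δ ε : ℝ) (W B n : ℕ) : Prop :=
  ∃ S : ℝ, 0 < S ∧ Filter.Tendsto (partialS b c n) Filter.atTop (nhds S) ∧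
    ∀ u v : ℝ, 0 ≤ u → (n : ℝ) ^ (1 / 8 + δ) ≤ v → v ^ 2 * Real.log n ^ B ≤ n → v / Real.log n ^ W ≤ v - u →
      |(count b c n u v : ℝ) - S * (v - u) / (Real.log v * Real.log n)| ≤
        ε * (S * (v - u) / (Real.log v * Real.log n))

open Classical in
/-- for all but `O(X / (log X) ^ A)` of the odd `n ≤ X` the formula holds in all windows -/
theorem result (b c : ℤ) (hbc : Odd (b + c)) (hb : ¬ (3 : ℤ) ∣ b) (W A : ℕ) (δ ε : ℝ) (hδ : 0 < δ) (hε : 0 < ε) :
    ∃ B X₀ : ℕ, ∀ X : ℕ, X₀ ≤ X →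
    (((Icc 1 X).filter (fun n : ℕ => Odd n ∧ ¬ Holds b c δ ε W B n)).card : ℝ) ≤ X / Real.log X ^ A := by
  obtain ⟨ε', hε'⟩ : ∃ ε', ε' = min ε 1 := ⟨_, rfl⟩
  have hε'0 : 0 < ε' := by rw [hε']; positivity
  have hε'1 : ε' ≤ 1 := by rw [hε']; exact min_le_right _ _
  have hε'e : ε' ≤ ε := by rw [hε']; exact min_le_left _ _
  obtain ⟨D, X1, h1⟩ := Pool.Agent.H561.PG.quad_all true 1 b one_pos (W + 1) (A + 1) (δ / 2) (ε' / 4) (by positivity) (by positivity)
  obtain ⟨n0', h2'⟩ := Pool.Agent.H561.PG.mon_core b c δ ε' hδ hε'0 hε'1 W D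
  obtain ⟨n0, hn0d⟩ : ∃ n0 : ℕ, n0 = n0' + c.natAbs + 1 := ⟨_, rfl⟩
  obtain ⟨X3, h4⟩ := Filter.eventually_atTop.1 (((Real.isLittleO_pow_log_id_atTop (n := A)).def
    (show (0 : ℝ) < 1 / (2 * (n0 + 1)) by positivity)).natCast_atTop)
  obtain ⟨X4, h5⟩ := Pool.Agent.H373R2.T7.ev_L' 8
  refine ⟨D + 3, X1 + X3 + X4 + c.natAbs + 4, fun X hX => ?_⟩
  have hX0 : (0 : ℝ) < X := by exact_mod_cast (by omega : 0 < X)
  obtain ⟨Y, hY⟩ : ∃ Y : ℕ, Y = X + c.natAbs := ⟨_, rfl⟩
  have k1 := h1 Y (by omega)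
  have k4 := h4 X (by omega)
  have k5 := h5 X (by omega)
  obtain ⟨F, hF⟩ : ∃ F, F = (Icc (-(Y : ℤ)) Y).filter (fun m : ℤ => m ≠ 0 ∧ Pool.Agent.H561.PG.LS true 1 b m ∧
    ¬ Pool.Agent.H561.PG.HoldC true 1 b (δ / 2) (ε' / 4) (W + 1) D m) := ⟨_, rfl⟩
  rw [← hF] at k1
  have hsub : (Icc 1 X).filter (fun n : ℕ => Odd n ∧ ¬ Holds b c δ ε W (D + 3) n) ⊆
      range n0 ∪ F.image (fun m : ℤ => (c - m).natAbs) := by
    intro n hn
    rw [mem_filter, mem_Icc] at hn
    obtain ⟨⟨g1, g2⟩, g3, g4⟩ := hn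
    rw [mem_union]
    by_cases hn0 : n < n0
    · exact Or.inl (mem_range.2 hn0)
    · right
      rw [mem_image]
      refine ⟨c - n, ?_, by omega⟩
      have g5 : ¬ Pool.Agent.H561.PG.HoldC true 1 b (δ / 2) (ε' / 4) (W + 1) D (c - n) := by
        intro h
        apply g4
        obtain ⟨S, s1, s2, s3⟩ := h2' n (by omega) h
        refine ⟨S, s1, s2, fun u v hu hv hvD hvu => ?_⟩
        have s4 := s3 u v hu hv hvD hvu
        refine (le_of_eq (by rfl)).trans (s4.trans ?_)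
        apply mul_le_mul_of_nonneg_right hε'e
        by_contra hneg
        push Not at hneg
        have := mul_neg_of_pos_of_neg hε'0 hneg
        have := abs_nonneg ((Pool.Agent.H561.PG.cntn b c n u v : ℝ) - S * (v - u) / (Real.log v * Real.log n))
        linarith
      rw [hF, mem_filter, mem_Icc]
      refine ⟨⟨by omega, by omega⟩, by omega, ?_, g5⟩
      apply Pool.Agent.H561.PG.LS_mon b (c - n) _ hb
      obtain ⟨i, hi⟩ := hbc
      obtain ⟨j, hj⟩ := g3
      exact ⟨i - j, by omega⟩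
  have hcard : (((Icc 1 X).filter (fun n : ℕ => Odd n ∧ ¬ Holds b c δ ε W (D + 3) n)).card : ℝ) ≤ n0 + F.card := by
    have := (card_le_card hsub).trans ((card_union_le _ _).trans (add_le_add le_rfl card_image_le))
    rw [card_range] at this
    exact_mod_cast this
  refine hcard.trans ?_
  have hl0 : 0 < Real.log (X : ℝ) := by linarith
  have hLA : 0 < Real.log (X : ℝ) ^ A := pow_pos hl0 A
  have hY2 : (Y : ℝ) ≤ 2 * X := by exact_mod_cast (by omega : Y ≤ 2 * X)
  have hXY : (X : ℝ) ≤ Y := by exact_mod_cast (by omega : X ≤ Y)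
  have hlog : Real.log (X : ℝ) ≤ Real.log Y := Real.log_le_log hX0 hXY
  have e1 : (Y : ℝ) / Real.log Y ^ (A + 1) ≤ (1 / 4) * (X / Real.log X ^ A) := by
    calc (Y : ℝ) / Real.log Y ^ (A + 1) ≤ (2 * X) / Real.log X ^ (A + 1) := by
          apply div_le_div₀ (by positivity) hY2 (by positivity)
          exact pow_le_pow_left₀ hl0.le hlog _
      _ = (2 / Real.log X) * (X / Real.log X ^ A) := by
          rw [pow_succ]
          field_simp
      _ ≤ _ := by
          apply mul_le_mul_of_nonneg_right _ (by positivity)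
          rw [div_le_iff₀ hl0]
          linarith
  have e2 : (n0 : ℝ) ≤ (1 / 2) * (X / Real.log X ^ A) := by
    simp only [id, norm_pow, Real.norm_eq_abs, abs_of_pos hl0, abs_of_pos hX0] at k4
    rw [div_mul_eq_mul_div, one_mul, le_div_iff₀ (by positivity)] at k4
    have h6 : (n0 : ℝ) * Real.log X ^ A ≤ (1 / 2) * X := by nlinarith
    calc (n0 : ℝ) = n0 * Real.log X ^ A / Real.log X ^ A := by field_simp
      _ ≤ ((1 / 2) * X) / Real.log X ^ A := div_le_div_of_nonneg_right h6 hLA.le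
      _ = _ := by ring
  have hpos : 0 ≤ (X : ℝ) / Real.log X ^ A := by positivity
  linarith

end Pool.Agent.Results.MP_d9bc60_nt.SmallPrimeArguments
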