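import Pool.Agent.H563.UQ.Lb

/-!
# One thin set of primes `q` for the representations `n = f(q) + p`, for all admissible quadratic polynomials `f`

There is ONE set `Q` of primes with at most `log x (log log x) ^ C` elements up to `x` (for large `x`) such that for
EVERY admissible polynomial `f(x) = x ^ 2 + b x + c` (`b`, `c` of opposite parity, `3 ∤ b`) and every `A` all the odd
`n` in `(2 ^ j, 2 ^ (j + 1)]`, with at most `2 ^ j / j ^ A` exceptions (for large `j`), have at least `log j`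
representations `n = f(q) + p` with `q` in `Q` and a prime `p`.

So in van der Corput's theorem (almost all odd `n` are `f(p₁) + p₂`) the first prime can be taken from a fixed set which
has hardly more than `log x` elements and which does not depend on `f`.  This is best possible up to the power of
`log log x`, and even for a single polynomial and for a positive proportion of the `n`: part (3) says that a set `Q'`
which gives representations `n = f(q) + p` for at least `δ 2 ^ j` of the `n` in `(2 ^ j, 2 ^ (j + 1)]`, for all large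
`j`, has at least `(δ / 32) log x` elements up to `x` for all large `x`.

Method: for almost all odd `n` the number of the representations with `2 ^ (i - 2) < p₁ ≤ 2 ^ i` is the expected one for
all `i` with `n ^ (1/4) ≤ 2 ^ i ≤ n ^ (2/5)`, with a singular series which is at least a negative power of `log log n`
(after helper561, `Pool.Agent.H561.PG`).  In every block a power of `log i` of primes is chosen, such that a sum over all
pairs of a polynomial and an integer `n`, with weights which decrease exponentially with the number of the chosen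
representations of `n`, does not increase.
-/

set_option autoImplicit false

namespace Pool.Agent.Results.MP_d9bc60_nt.UniversalThinSet

open Finset Filter Topology
open scoped Classical
open Pool.Agent.H563.UQ
open Pool.Agent.H561.PG

/-- the number of the representations `n = f(q) + p`, `f = x ^ 2 + b x + c`, with primes `q`, `p` and `q ∈ Q` -/
noncomputable def reps (b c : ℤ) (Q : Set ℕ) (n : ℕ) : ℕ :=
  {q : ℕ | q ∈ Q ∧ q.Prime ∧ ∃ p : ℕ, p.Prime ∧ (n : ℤ) = ((q : ℤ) ^ 2 + b * q + c) + p}.ncard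

lemma reps_eq (b c : ℤ) (Q : Set ℕ) (n : ℕ) : reps b c Q n = {q : ℕ | q ∈ Q ∧ Rq b c n q}.ncard := rfl

lemma fin_reps (b c : ℤ) (Q : Set ℕ) (n : ℕ) : {q : ℕ | q ∈ Q ∧ Rq b c n q}.Finite := by
  apply Set.Finite.subset (Set.finite_Iic (b.natAbs + c.natAbs + n + 1))
  rintro q ⟨_, _, p, hp, he⟩
  rw [Set.mem_Iic]
  by_contra hcon
  push Not at hcon
  have hcon' : ((b.natAbs + c.natAbs + n + 1 : ℕ) : ℤ) < q := by exact_mod_cast hcon
  push_cast at hcon'
  have hb1 : -|b| ≤ b := neg_abs_le b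
  have hc1 : -|c| ≤ c := neg_abs_le c
  have hb0 := abs_nonneg b
  have hc0 := abs_nonneg c
  have hn0 : (0 : ℤ) ≤ (n : ℤ) := Int.natCast_nonneg _
  have hp0 : (0 : ℤ) < (p : ℤ) := by exact_mod_cast hp.pos
  have h8 : -|b| * q ≤ b * q := mul_le_mul_of_nonneg_right hb1 (by linarith)
  have h9 : (|c| + n + 1) * q ≤ (q - |b|) * q := mul_le_mul_of_nonneg_right (by linarith) (by linarith)
  nlinarith

/-- **A universal thin set of primes.** -/
theorem result : ∃ (C : ℕ) (Q : Set ℕ), (∀ q ∈ Q, q.Prime) ∧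
    (∀ᶠ x : ℕ in atTop, ({q | q ∈ Q ∧ q ≤ x}.ncard : ℝ) ≤ Real.log x * Real.log (Real.log x) ^ C) ∧
    (∀ b c : ℤ, Odd (b + c) → ¬ (3 : ℤ) ∣ b → ∀ A : ℕ, ∀ᶠ j : ℕ in atTop,
      ({n : ℕ | 2 ^ j < n ∧ n ≤ 2 ^ (j + 1) ∧ Odd n ∧ ¬ Real.log j ≤ reps b c Q n}.ncard : ℝ) ≤
        2 ^ j / (j : ℝ) ^ A) ∧
    ∀ (b c : ℤ) (δ : ℝ), 0 < δ → ∀ Q' : Set ℕ,
      (∀ᶠ j : ℕ in atTop, δ * 2 ^ j ≤ ({n : ℕ | 2 ^ j < n ∧ n ≤ 2 ^ (j + 1) ∧ 1 ≤ reps b c Q' n}.ncard : ℝ)) →
      ∀ᶠ x : ℕ in atTop, δ / 32 * Real.log x ≤ ({q | q ∈ Q' ∧ q ≤ x}.ncard : ℝ) := by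
  obtain ⟨C₁, hC₁⟩ := St_evl (2 + (1 : ℤ).natAbs)
  obtain ⟨i₀, T, hT1, hT2⟩ := sets C₁
  refine ⟨C₁ + 5, {q | ∃ i, q ∈ T i}, ?_, ?_, ?_, ?_⟩
  · rintro q ⟨i, hi⟩
    exact (mem_Bp.1 ((hT1 i).1 hi)).2.2
  · filter_upwards [ev_thin C₁, eventually_ge_atTop 1] with x hx hx1
    refine le_trans ?_ hx
    have hsub : {q | q ∈ {q | ∃ i, q ∈ T i} ∧ q ≤ x} ⊆ (((range (Nat.log 2 x + 3)).biUnion T : Finset ℕ) : Set ℕ) := by
      rintro q ⟨⟨i, hi⟩, hq⟩
      rw [mem_coe, mem_biUnion]
      refine ⟨i, ?_, hi⟩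
      rw [mem_range]
      have h1 := (mem_Bp.1 ((hT1 i).1 hi)).1
      have h2 : 2 ^ (i - 2) ≤ x := h1.le.trans hq
      have h3 := Nat.le_log_of_pow_le (by norm_num) h2
      omega
    have h1 := Set.ncard_le_ncard hsub (finite_toSet _)
    rw [Set.ncard_coe_finset] at h1
    have h2 : (((range (Nat.log 2 x + 3)).biUnion T).card : ℝ) ≤ ∑ i ∈ range (Nat.log 2 x + 3), ((T i).card : ℝ) := by
      exact_mod_cast card_biUnion_le
    have h3 : ∑ i ∈ range (Nat.log 2 x + 3), ((T i).card : ℝ) ≤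
        ∑ _i ∈ range (Nat.log 2 x + 3), (Real.log ((Nat.log 2 x : ℝ) + 3) ^ (C₁ + 4) + 1) := by
      apply sum_le_sum
      intro i hi
      rw [mem_range] at hi
      have h4 : ((T i).card : ℝ) ≤ kk C₁ i₀ i := by exact_mod_cast (hT1 i).2
      refine h4.trans ?_
      have h5 : 0 ≤ Real.log (i : ℝ) := Real.log_natCast_nonneg i
      have h6 : Real.log (i : ℝ) ≤ Real.log ((Nat.log 2 x : ℝ) + 3) := by
        rcases Nat.eq_zero_or_pos i with h | h
        · rw [h]
          simp only [Nat.cast_zero, Real.log_zero]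
          apply Real.log_nonneg
          have : (0 : ℝ) ≤ (Nat.log 2 x : ℝ) := by positivity
          linarith
        · apply Real.log_le_log (by exact_mod_cast h)
          have : (i : ℝ) ≤ ((Nat.log 2 x + 3 : ℕ) : ℝ) := by exact_mod_cast hi.le
          push_cast at this
          exact this
      unfold kk
      split_ifs
      · push_cast
        have : 0 ≤ Real.log ((Nat.log 2 x : ℝ) + 3) ^ (C₁ + 4) := pow_nonneg (h5.trans h6) _
        linarith
      · have h7 := (Nat.ceil_lt_add_one (pow_nonneg h5 (C₁ + 4))).le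
        have h8 := pow_le_pow_left₀ h5 h6 (C₁ + 4)
        linarith
    rw [sum_const, card_range, nsmul_eq_mul] at h3
    push_cast at h3
    calc ({q | q ∈ {q | ∃ i, q ∈ T i} ∧ q ≤ x}.ncard : ℝ) ≤ (((range (Nat.log 2 x + 3)).biUnion T).card : ℝ) := by
          exact_mod_cast h1
      _ ≤ _ := h2.trans h3
  · intro b c hbc hb A
    obtain ⟨D, X₀, hD⟩ := quadL true 1 b one_pos C₁ hC₁ 2 (A + 1) (1 / 16) (1 / 8) (by norm_num) (by norm_num)
      (by norm_num) (by norm_num)
    obtain ⟨J, hJ⟩ := dy b c D C₁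
    have hpar := par_encode b c
    obtain ⟨m, hm⟩ : ∃ m : ℕ, m = Encodable.encode (b, c) := ⟨_, rfl⟩
    rw [← hm] at hpar
    have hRR : ∀ n q : ℕ, RR (m, n) q ↔ Rq b c n q := by
      intro n q
      unfold RR
      rw [hpar]
    filter_upwards [few hT2 m A, eventually_ge_atTop (J + X₀ + c.natAbs + 8 * 2 ^ (A + 1) + 1)] with j hj hjJ
    obtain ⟨X, hX⟩ : ∃ X : ℕ, X = 2 ^ (j + 2) := ⟨_, rfl⟩
    have hj2 : j < 2 ^ j := Nat.lt_two_pow_self
    have hX4 : X = 4 * 2 ^ j := by rw [hX, pow_add]; ring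
    have hX2 : 2 ^ (j + 1) = 2 * 2 ^ j := by rw [pow_succ]; ring
    have hF := hD X (by omega)
    obtain ⟨F, hFd⟩ : ∃ F, F = (Icc (-(X : ℤ)) X).filter (fun c' : ℤ => c' ≠ 0 ∧ LS true 1 b c' ∧
      ¬ HoldL true 1 b (1 / 16) (1 / 8) 2 D C₁ c') := ⟨_, rfl⟩
    have hF' : (F.card : ℝ) ≤ X / Real.log X ^ (A + 1) := by
      rw [hFd]
      refine le_trans (le_of_eq ?_) hF
      congr!
    obtain ⟨G, hGd⟩ : ∃ G, G = (Ioc (2 ^ j) (2 ^ (j + 1))).filter (fun n : ℕ =>
      HoldL true 1 b (1 / 16) (1 / 8) 2 D C₁ (c - n) ∧ ¬ Real.log j ≤ reps b c {q | ∃ i, q ∈ T i} n) := ⟨_, rfl⟩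
    have hG : (G.card : ℝ) ≤ 1 / 2 * (2 ^ j / (j : ℝ) ^ A) := by
      apply hj G
      intro n hn
      rw [hGd, mem_filter, mem_Ioc] at hn
      obtain ⟨⟨h1, h2⟩, h3, h4⟩ := hn
      refine ⟨h1, h2, ?_, ?_⟩
      · intro i hi1 hi2
        refine (hJ j (by omega) n h1 h2 h3 i hi1 hi2).trans ?_
        have h5 : ((Bp i).filter (Rq b c n)).card ≤ ((Bp i).filter (RR (m, n))).card := by
          apply card_le_card
          intro q hq
          rw [mem_filter] at hq ⊢
          exact ⟨hq.1, (hRR n q).2 hq.2⟩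
        exact_mod_cast h5
      · push Not at h4
        refine lt_of_le_of_lt ?_ h4
        rw [reps_eq]
        have h5 : ((((range j).biUnion T).filter (RR (m, n)) : Finset ℕ) : Set ℕ) ⊆
            {q : ℕ | q ∈ {q | ∃ i, q ∈ T i} ∧ Rq b c n q} := by
          intro q hq
          rw [mem_coe, mem_filter, mem_biUnion] at hq
          obtain ⟨⟨i, _, hi⟩, hR⟩ := hq
          exact ⟨⟨i, hi⟩, (hRR n q).1 hR⟩
        have h6 := Set.ncard_le_ncard h5 (fin_reps b c _ n)
        rw [Set.ncard_coe_finset] at h6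
        exact_mod_cast h6
    have hsub : {n : ℕ | 2 ^ j < n ∧ n ≤ 2 ^ (j + 1) ∧ Odd n ∧ ¬ Real.log j ≤ reps b c {q | ∃ i, q ∈ T i} n} ⊆
        ((G ∪ F.image (fun c' : ℤ => (c - c').toNat) : Finset ℕ) : Set ℕ) := by
      rintro n ⟨h1, h2, h3, h4⟩
      rw [mem_coe, mem_union]
      by_cases h5 : HoldL true 1 b (1 / 16) (1 / 8) 2 D C₁ (c - n)
      · left
        rw [hGd, mem_filter, mem_Ioc]
        exact ⟨⟨h1, h2⟩, h5, h4⟩
      · right
        rw [mem_image]
        refine ⟨c - n, ?_, by omega⟩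
        rw [hFd, mem_filter, mem_Icc]
        refine ⟨⟨by omega, by omega⟩, by omega, ?_, h5⟩
        apply LS_mon b (c - n) _ hb
        obtain ⟨k, hk⟩ := hbc
        obtain ⟨l, hl⟩ := h3
        exact ⟨k - l, by omega⟩
    have h1 := Set.ncard_le_ncard hsub (finite_toSet _)
    rw [Set.ncard_coe_finset] at h1
    have h2 : (({n : ℕ | 2 ^ j < n ∧ n ≤ 2 ^ (j + 1) ∧ Odd n ∧
        ¬ Real.log j ≤ reps b c {q | ∃ i, q ∈ T i} n}.ncard : ℕ) : ℝ) ≤ G.card + F.card := by
      exact_mod_cast h1.trans ((card_union_le _ _).trans (Nat.add_le_add_left card_image_le _))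
    refine h2.trans ?_
    have hjr : (1 : ℝ) ≤ j := by exact_mod_cast (by omega : 1 ≤ j)
    have hj0 : (0 : ℝ) < j := by linarith
    have hlog : (j : ℝ) / 2 ≤ Real.log X := by
      rw [hX]
      push_cast
      rw [Real.log_pow]
      push_cast
      have := Real.log_two_gt_d9
      nlinarith
    have hXr : (X : ℝ) = 4 * 2 ^ j := by
      rw [hX4]
      push_cast
      ring
    have h3 : (X : ℝ) / Real.log X ^ (A + 1) ≤ 1 / 2 * (2 ^ j / (j : ℝ) ^ A) := by
      calc (X : ℝ) / Real.log X ^ (A + 1) ≤ (4 * 2 ^ j) / ((j : ℝ) / 2) ^ (A + 1) := by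
            rw [hXr]
            rw [hXr] at hlog
            apply div_le_div_of_nonneg_left (by positivity) (by positivity)
            exact pow_le_pow_left₀ (by positivity) hlog _
        _ = (8 * 2 ^ (A + 1) / j) * (1 / 2 * (2 ^ j / (j : ℝ) ^ A)) := by
            rw [div_pow, pow_succ (j : ℝ) A]
            field_simp
            norm_num
        _ ≤ 1 * (1 / 2 * (2 ^ j / (j : ℝ) ^ A)) := by
            apply mul_le_mul_of_nonneg_right _ (by positivity)
            rw [div_le_one hj0]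
            have : 8 * 2 ^ (A + 1) ≤ j := by omega
            exact_mod_cast this
        _ = _ := one_mul _
    linarith
  · intro b c δ hδ Q' h
    apply lower b c δ hδ Q'
    filter_upwards [h] with j hj
    refine hj.trans ?_
    have h1 : {n : ℕ | 2 ^ j < n ∧ n ≤ 2 ^ (j + 1) ∧ 1 ≤ reps b c Q' n} ⊆
        {n : ℕ | 2 ^ j < n ∧ n ≤ 2 ^ (j + 1) ∧ ∃ q ∈ Q', Rq b c n q} := by
      rintro n ⟨h1, h2, h3⟩
      refine ⟨h1, h2, ?_⟩
      rw [reps_eq] at h3
      obtain ⟨q, hq1, hq2⟩ := Set.nonempty_of_ncard_ne_zero (by omega : {q : ℕ | q ∈ Q' ∧ Rq b c n q}.ncard ≠ 0)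
      exact ⟨q, hq1, hq2⟩
    exact_mod_cast Set.ncard_le_ncard h1 ((Set.finite_Iic (2 ^ (j + 1))).subset fun n hn => hn.2.1)

end Pool.Agent.Results.MP_d9bc60_nt.UniversalThinSet
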